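import Pool.Agent.H78.Hopf

/-! A relatively free algebra of rank one over the field with two elements that is not Hopfian. -/

namespace Pool.Agent.Results.MP_e7abc8_al.NotHopfian

open Pool.Agent.H78.NAlg

theorem result :
    ∃ (S : Set (FreeNonUnitalNonAssocAlgebra (ZMod 2) ℕ)) (A : Alg (ZMod 2)),
      IsFreeOfRank S 1 A ∧ ¬ Hopfian A := by
  obtain ⟨S, A, h1, h2, _⟩ := exists_bad
  exact ⟨S, A, h1, h2⟩

end Pool.Agent.Results.MP_e7abc8_al.NotHopfian
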